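import Pool.Agent.U758.BGS.Joint

/-! Heights: nonnegative statistics times the height are monotone. -/

set_option autoImplicit false

namespace Pool.Agent.U758.BGS

open Filter Topology Set MeasureTheory
open Pool.Agent.Q205.Baire

variable {M : Type*} [TopologicalSpace M] {n : ℕ}

theorem count_mono (X : Spectra M) (g : M) {T T' : ℝ} (h : T ≤ T') : count X T g ≤ count X T' g := by
  by_contra hlt
  push Not at hlt
  have h1 := (lt_count X T g (count X T' g)).1 hlt
  have h2 := (lt_count X T' g (count X T' g)).2 (h1.trans h)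
  exact lt_irrefl _ h2

theorem S_mono (X : Spectra M) (L : LocalStat (Fin n → ℝ)) (hL : Monotone L.I)
    {f : (Fin n → ℝ) → ℝ} (hf : ∀ z, 0 ≤ f z) (g : M) {T T' : ℝ} (hT : 0 < T) (h : T ≤ T') :
    T * S X L f T g ≤ T' * S X L f T' g := by
  unfold S
  rw [mul_div_cancel₀ _ hT.ne', mul_div_cancel₀ _ (hT.trans_le h).ne']
  exact Finset.sum_le_sum_of_subset_of_nonneg (hL (count_mono X g h)) fun _ _ _ => hf _

theorem S_nonneg (X : Spectra M) (L : LocalStat (Fin n → ℝ))
    {f : (Fin n → ℝ) → ℝ} (hf : ∀ z, 0 ≤ f z) (g : M) {T : ℝ} (hT : 0 < T) : 0 ≤ S X L f T g := by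
  unfold S
  exact div_nonneg (Finset.sum_nonneg fun _ _ => hf _) hT.le

/-- the law from heights which are dense on a logarithmic scale -/
theorem tendsto_of_gap {s : ℝ → ℝ} (hs : ∀ T T' : ℝ, 0 < T → T ≤ T' → T * s T ≤ T' * s T')
    {c : ℝ} (hc : 0 ≤ c)
    (h : ∀ ε : ℝ, 0 < ε → ∀ δ : ℝ, 0 < δ → ∃ T0 : ℝ, ∀ T, T0 ≤ T → ∃ T', T ≤ T' ∧
      T' ≤ (1 + δ) * T ∧ |s T' - c| < ε) : Tendsto s atTop (𝓝 c) := by
  rw [Metric.tendsto_nhds]
  intro ε hε
  set δ : ℝ := min 1 (ε / (2 * (c + 1))) with hδ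
  have hδ0 : 0 < δ := lt_min one_pos (by positivity)
  have hδ1 : δ ≤ 1 := min_le_left _ _
  have hδc : δ * (c + 1) ≤ ε / 2 := by
    calc δ * (c + 1) ≤ ε / (2 * (c + 1)) * (c + 1) :=
          mul_le_mul_of_nonneg_right (min_le_right _ _) (by positivity)
      _ = ε / 2 := by field_simp
  obtain ⟨T0, hT0⟩ := h (min 1 (ε / 8)) (lt_min one_pos (by positivity)) δ hδ0
  filter_upwards [eventually_ge_atTop (2 * max 1 T0)] with T hT
  have hm1 : (1 : ℝ) ≤ max 1 T0 := le_max_left _ _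
  have hm2 : T0 ≤ max 1 T0 := le_max_right _ _
  have hTpos : 0 < T := by linarith
  obtain ⟨T1, h1a, h1b, h1c⟩ := hT0 T (by linarith)
  have hq : T / (1 + δ) * (1 + δ) = T := div_mul_cancel₀ _ (by positivity)
  have hq0 : 0 < T / (1 + δ) := by positivity
  have hq1 : T0 ≤ T / (1 + δ) := by
    rw [le_div_iff₀ (by positivity)]
    have : T0 * (1 + δ) ≤ max 1 T0 * (1 + δ) := mul_le_mul_of_nonneg_right hm2 (by positivity)
    nlinarith
  obtain ⟨T2, h2a, h2b, h2c⟩ := hT0 (T / (1 + δ)) hq1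
  have h2b' : T2 ≤ T := by
    rw [mul_comm] at h2b
    linarith
  have h2pos : 0 < T2 := hq0.trans_le h2a
  have k1 : |s T1 - c| < ε / 8 := lt_of_lt_of_le h1c (min_le_right _ _)
  have k1' : |s T1 - c| < 1 := lt_of_lt_of_le h1c (min_le_left _ _)
  have k2 : |s T2 - c| < ε / 8 := lt_of_lt_of_le h2c (min_le_right _ _)
  have k2' : |s T2 - c| < 1 := lt_of_lt_of_le h2c (min_le_left _ _)
  rw [abs_lt] at k1 k1' k2 k2'
  have m1 := hs T T1 hTpos h1a
  have m2 := hs T2 T h2pos h2b'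
  -- upper bound
  have u1 : T * s T ≤ T * (c + ε / 8 + δ * (c + 1)) := by
    have a1 : T1 * s T1 ≤ T * s T1 + δ * T * (c + 1) := by
      have : (T1 - T) * s T1 ≤ δ * T * (c + 1) := by
        by_cases hsn : 0 ≤ s T1
        · calc (T1 - T) * s T1 ≤ (δ * T) * s T1 :=
                mul_le_mul_of_nonneg_right (by linarith) hsn
            _ ≤ (δ * T) * (c + 1) := mul_le_mul_of_nonneg_left (by linarith [k1'.2]) (by positivity)
        · push Not at hsn
          have b1 : (T1 - T) * s T1 ≤ 0 := mul_nonpos_of_nonneg_of_nonpos (by linarith) hsn.le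
          have b2 : 0 ≤ δ * T * (c + 1) := by positivity
          linarith
      linarith
    have a2 : T * s T1 ≤ T * (c + ε / 8) := mul_le_mul_of_nonneg_left (by linarith [k1.2]) hTpos.le
    nlinarith
  have u2 : s T ≤ c + ε / 8 + δ * (c + 1) := le_of_mul_le_mul_left u1 hTpos
  -- lower bound
  have l1 : T2 * (c - ε / 8) ≤ T * s T :=
    (mul_le_mul_of_nonneg_left (by linarith [k2.1]) h2pos.le).trans m2
  have l2 : T * (c - ε / 8 - δ * (c + 1)) ≤ T2 * (c - ε / 8) := by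
    have b0 : T ≤ T2 * (1 + δ) := by
      have := mul_le_mul_of_nonneg_right h2a (show 0 ≤ 1 + δ by positivity)
      linarith
    by_cases hcn : 0 ≤ c - ε / 8
    · have b1 : T * (c - ε / 8) ≤ T2 * (1 + δ) * (c - ε / 8) := mul_le_mul_of_nonneg_right b0 hcn
      have b2 : T2 * δ * (c - ε / 8) ≤ T * δ * (c + 1) := by
        calc T2 * δ * (c - ε / 8) ≤ T * δ * (c - ε / 8) := by
              apply mul_le_mul_of_nonneg_right _ hcn
              exact mul_le_mul_of_nonneg_right h2b' hδ0.le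
          _ ≤ T * δ * (c + 1) := mul_le_mul_of_nonneg_left (by linarith) (by positivity)
      nlinarith
    · push Not at hcn
      have b1 : T * (c - ε / 8) ≤ T2 * (c - ε / 8) := mul_le_mul_of_nonpos_right h2b' hcn.le
      have b2 : 0 ≤ T * (δ * (c + 1)) := by positivity
      nlinarith
  have l3 : c - ε / 8 - δ * (c + 1) ≤ s T := le_of_mul_le_mul_left (l2.trans l1) hTpos
  rw [Real.dist_eq, abs_lt]
  constructor <;> linarith

/-- a deviation persists on an interval of heights -/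
theorem persist {s : ℝ → ℝ} (hs : ∀ T T' : ℝ, 0 < T → T ≤ T' → T * s T ≤ T' * s T')
    {c ε : ℝ} (hc : 0 ≤ c) (hε : 0 < ε) (h : ∀ T0 : ℝ, ∃ T, T0 ≤ T ∧ ε < |s T - c|) :
    ∀ T0 : ℝ, ∃ T, T0 ≤ T ∧ ∀ T', T ≤ T' → T' ≤ (1 + min 1 (ε / (4 * (c + ε)))) * T →
      ε / 2 < |s T' - c| := by
  intro T0
  set δ : ℝ := min 1 (ε / (4 * (c + ε))) with hδ
  have hδ0 : 0 < δ := lt_min one_pos (by positivity)
  have hδ1 : δ ≤ 1 := min_le_left _ _
  have hδc : δ * (c + ε) ≤ ε / 4 := by
    calc δ * (c + ε) ≤ ε / (4 * (c + ε)) * (c + ε) :=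
          mul_le_mul_of_nonneg_right (min_le_right _ _) (by positivity)
      _ = ε / 4 := by field_simp
  obtain ⟨T, hT, hdev⟩ := h (2 * max 1 T0)
  have hm1 : (1 : ℝ) ≤ max 1 T0 := le_max_left _ _
  have hm2 : T0 ≤ max 1 T0 := le_max_right _ _
  have hTpos : 0 < T := by linarith
  rcases lt_abs.1 hdev with hup | hdn
  · refine ⟨T, by linarith, fun T' hT1 hT2 => ?_⟩
    have hT'pos : 0 < T' := hTpos.trans_le hT1
    have m1 := hs T T' hTpos hT1
    have m2 : T * (c + ε) ≤ T' * s T' :=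
      (mul_le_mul_of_nonneg_left (by linarith) hTpos.le).trans m1
    have m3 : T' * (c + ε / 2) < T * (c + ε) := by
      have a1 : T' * (c + ε / 2) ≤ (1 + δ) * T * (c + ε / 2) :=
        mul_le_mul_of_nonneg_right hT2 (by positivity)
      have a2 : (1 + δ) * (c + ε / 2) < c + ε := by
        have : δ * (c + ε / 2) ≤ δ * (c + ε) := mul_le_mul_of_nonneg_left (by linarith) hδ0.le
        nlinarith
      have a3 := mul_lt_mul_of_pos_left a2 hTpos
      nlinarith
    have m4 : c + ε / 2 < s T' := lt_of_mul_lt_mul_left (m3.trans_le m2) hT'pos.le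
    exact lt_abs.2 (Or.inl (by linarith))
  · refine ⟨T / (1 + δ), ?_, fun T' hT1 hT2 => ?_⟩
    · rw [le_div_iff₀ (by positivity)]
      have : T0 * (1 + δ) ≤ max 1 T0 * (1 + δ) := mul_le_mul_of_nonneg_right hm2 (by positivity)
      nlinarith
    · have hT2' : T' ≤ T := by
        have : (1 + δ) * (T / (1 + δ)) = T := mul_div_cancel₀ _ (by positivity)
        linarith
      have hT'pos : 0 < T' := lt_of_lt_of_le (by positivity) hT1
      have m1 := hs T' T hT'pos hT2'
      have b0 : T ≤ T' * (1 + δ) := by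
        rw [div_le_iff₀ (by positivity)] at hT1
        exact hT1
      have m2 : T * s T < T' * (c - ε / 2) := by
        have hsT : s T < c - ε := by linarith
        by_cases hcn : 0 ≤ c - ε
        · have a1 : T * s T < T * (c - ε) := mul_lt_mul_of_pos_left hsT hTpos
          have a2 : T * (c - ε) ≤ T' * (1 + δ) * (c - ε) := mul_le_mul_of_nonneg_right b0 hcn
          have a3 : (1 + δ) * (c - ε) ≤ c - ε / 2 := by
            have : δ * (c - ε) ≤ δ * (c + ε) := mul_le_mul_of_nonneg_left (by linarith) hδ0.le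
            nlinarith
          have a4 := mul_le_mul_of_nonneg_left a3 hT'pos.le
          nlinarith
        · push Not at hcn
          have a1 : T * s T < T * (c - ε) := mul_lt_mul_of_pos_left hsT hTpos
          have a2 : T * (c - ε) ≤ T' * (c - ε) := mul_le_mul_of_nonpos_right hT2' hcn.le
          have a3 : T' * (c - ε) ≤ T' * (c - ε / 2) := mul_le_mul_of_nonneg_left (by linarith) hT'pos.le
          linarith
      have m3 : s T' < c - ε / 2 := lt_of_mul_lt_mul_left (m1.trans_lt m2) hT'pos.le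
      exact lt_abs.2 (Or.inr (by linarith))

/-- the difference of two laws -/
theorem locUnif_sub {B B1 B2 : ℝ → M → ℝ} {c1 c2 : ℝ} (hB : ∀ T g, B T g = B1 T g - B2 T g)
    (h1 : LocUnif B1 c1) (h2 : LocUnif B2 c2) : LocUnif B (c1 - c2) := by
  intro ε hε U hU hne
  obtain ⟨V, hV, hVne, hVU, T1, hT1⟩ := h1 (ε / 2) (by positivity) U hU hne
  obtain ⟨W, hW, hWne, hWV, T2, hT2⟩ := h2 (ε / 2) (by positivity) V hV hVne
  refine ⟨W, hW, hWne, hWV.trans hVU, max T1 T2, fun g hg T hT => ?_⟩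
  have e1 := abs_le.1 (hT1 g (hWV hg) T ((le_max_left _ _).trans hT))
  have e2 := abs_le.1 (hT2 g hg T ((le_max_right _ _).trans hT))
  rw [hB, abs_le]
  constructor <;> linarith [e1.1, e1.2, e2.1, e2.2]

theorem S_sub (X : Spectra M) (L : LocalStat (Fin n → ℝ)) (f : (Fin n → ℝ) → ℝ) (T : ℝ) (g : M) :
    S X L f T g = S X L (fun z => max (f z) 0) T g - S X L (fun z => max (-f z) 0) T g := by
  unfold S
  rw [← sub_div, ← Finset.sum_sub_distrib]
  congr 1
  apply Finset.sum_congr rfl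
  intro i _
  simp only
  rcases le_total 0 (f (L.φ i fun k => X.x k g)) with h | h
  · rw [max_eq_left h, max_eq_right (by linarith)]
    ring
  · rw [max_eq_right h, max_eq_left (by linarith)]
    ring

theorem test_pos {f : (Fin n → ℝ) → ℝ} (hf : Continuous f) (hs : HasCompactSupport f) :
    Continuous (fun z => max (f z) 0) ∧ HasCompactSupport (fun z => max (f z) 0) := by
  refine ⟨hf.max continuous_const, ?_⟩
  exact hs.comp_left (g := fun y : ℝ => max y 0) (by simp)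

theorem test_neg {f : (Fin n → ℝ) → ℝ} (hf : Continuous f) (hs : HasCompactSupport f) :
    Continuous (fun z => max (-f z) 0) ∧ HasCompactSupport (fun z => max (-f z) 0) := by
  refine ⟨hf.neg.max continuous_const, ?_⟩
  exact hs.comp_left (g := fun y : ℝ => max (-y) 0) (by simp)

theorem int_sub (ν : Measure (Fin n → ℝ)) [IsFiniteMeasureOnCompacts ν] {f : (Fin n → ℝ) → ℝ}
    (hf : Continuous f) (hs : HasCompactSupport f) :
    ∫ z, f z ∂ν = ∫ z, max (f z) 0 ∂ν - ∫ z, max (-f z) 0 ∂ν := by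
  rw [← integral_sub ((test_pos hf hs).1.integrable_of_hasCompactSupport (test_pos hf hs).2)
    ((test_neg hf hs).1.integrable_of_hasCompactSupport (test_neg hf hs).2)]
  congr 1
  funext z
  rcases le_total 0 (f z) with h | h
  · rw [max_eq_left h, max_eq_right (by linarith)]
    ring
  · rw [max_eq_right h, max_eq_left (by linarith)]
    ring

/-- a generic law which fails, fails for one nonnegative test function on intervals of heights -/
theorem dichotomy [BaireSpace M] (X : Spectra M) {𝒜 : Type} [Countable 𝒜] (d : 𝒜 → ℕ)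
    (L : ∀ a, LocalStat (Fin (d a) → ℝ)) (hL : ∀ a, Monotone (L a).I)
    (ν : ∀ a, Measure (Fin (d a) → ℝ)) [∀ a, IsFiniteMeasureOnCompacts (ν a)]
    (h : ¬ ∀ᶠ g in residual M, Good X d L ν g) :
    ∃ a, ∃ f : (Fin (d a) → ℝ) → ℝ, (Continuous f ∧ HasCompactSupport f) ∧ (∀ z, 0 ≤ f z) ∧
      ∃ ε : ℝ, 0 < ε ∧ ∃ δ : ℝ, 0 < δ ∧ ∃ U : Set M, IsOpen U ∧ U.Nonempty ∧
        ∀ᶠ g in residual M, g ∈ U → ∀ T0 : ℝ, ∃ T, T0 ≤ T ∧ ∀ T', T ≤ T' → T' ≤ (1 + δ) * T →
          ε < |S X (L a) f T' g - ∫ z, f z ∂(ν a)| := by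
  have h1 : ∃ a, ∃ f : (Fin (d a) → ℝ) → ℝ, (Continuous f ∧ HasCompactSupport f) ∧
      (∀ z, 0 ≤ f z) ∧ ¬ LocUnif (S X (L a) f) (∫ z, f z ∂(ν a)) := by
    by_contra hcon
    push Not at hcon
    apply h
    rw [main_iff]
    intro a f hf hs
    have hp := hcon a _ (test_pos hf hs) (fun z => le_max_right _ _)
    have hn := hcon a _ (test_neg hf hs) (fun z => le_max_right _ _)
    rw [int_sub (ν a) hf hs]
    exact locUnif_sub (S_sub X (L a) f) hp hn
  obtain ⟨a, f, hf, hf0, hn⟩ := h1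
  obtain ⟨ε, hε, U, hU, hne, hr⟩ := exists_open_of_not_locUnif (nice_S X (L a) hf.1) hn
  have hc : 0 ≤ ∫ z, f z ∂(ν a) := integral_nonneg hf0
  refine ⟨a, f, hf, hf0, ε / 2, by positivity, min 1 (ε / (4 * (∫ z, f z ∂(ν a) + ε))),
    lt_min one_pos (by positivity), U, hU, hne, ?_⟩
  filter_upwards [hr] with g hg hgU
  have h2 := hg hgU
  rw [frequently_atTop] at h2
  exact persist (s := fun T => S X (L a) f T g) (c := ∫ z, f z ∂(ν a)) (ε := ε)
    (fun T T' hT hTT => S_mono X (L a) (hL a) hf0 g hT hTT) hc hε h2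

/-- the law for one parameter from heights which are dense on a logarithmic scale -/
theorem good_of_gap (X : Spectra M) {𝒜 : Type} (d : 𝒜 → ℕ)
    (L : ∀ a, LocalStat (Fin (d a) → ℝ)) (hL : ∀ a, Monotone (L a).I)
    (ν : ∀ a, Measure (Fin (d a) → ℝ)) [∀ a, IsFiniteMeasureOnCompacts (ν a)] (g : M)
    (h : ∀ a, ∀ f : (Fin (d a) → ℝ) → ℝ, (Continuous f ∧ HasCompactSupport f) → (∀ z, 0 ≤ f z) →
      ∀ ε : ℝ, 0 < ε → ∀ δ : ℝ, 0 < δ → ∃ T0 : ℝ, ∀ T, T0 ≤ T → ∃ T', T ≤ T' ∧
        T' ≤ (1 + δ) * T ∧ |S X (L a) f T' g - ∫ z, f z ∂(ν a)| < ε) : Good X d L ν g := by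
  have h1 : ∀ a, ∀ f : (Fin (d a) → ℝ) → ℝ, (Continuous f ∧ HasCompactSupport f) →
      (∀ z, 0 ≤ f z) → Tendsto (fun T => S X (L a) f T g) atTop (𝓝 (∫ z, f z ∂(ν a))) := by
    intro a f hf hf0
    exact tendsto_of_gap (s := fun T => S X (L a) f T g)
      (fun T T' hT hTT => S_mono X (L a) (hL a) hf0 g hT hTT) (integral_nonneg hf0) (h a f hf hf0)
  intro a f hf hs
  rw [int_sub (ν a) hf hs]
  have h2 := (h1 a _ (test_pos hf hs) (fun z => le_max_right _ _)).sub
    (h1 a _ (test_neg hf hs) (fun z => le_max_right _ _))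
  refine h2.congr fun T => ?_
  rw [S_sub X (L a) f T g]

end Pool.Agent.U758.BGS
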