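import Pool.Agent.Q205.Baire.Joint

/-! Baire category for one-parameter families of functions: oscillation, convergence to unspecified
limits, and rates. -/

set_option autoImplicit false

namespace Pool.Agent.U758.BGS

open Filter Topology Set MeasureTheory
open Pool.Agent.Q205.Baire

section gen

variable {M : Type*} [TopologicalSpace M]

/-- the set where the oscillation is at most `ε` from time `T0` on -/
def Osc (B : ℝ → M → ℝ) (ε T0 : ℝ) : Set M :=
  {g | ∀ T, T0 ≤ T → ∀ T', T0 ≤ T' → |B T g - B T' g| ≤ ε}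

theorem exists_cont {B : ℝ → M → ℝ} (hB : Nice B) (g : M) {T : ℝ} (hT : 0 < T) {P : ℝ → Prop}
    (hP : ∀ᶠ y in 𝓝 (B T g), P y) : ∃ T', T ≤ T' ∧ ContinuousAt (B T') g ∧ P (B T' g) := by
  have h2 : ∀ᶠ S in 𝓝[≥] T, P (B S g) := (hB.right g T hT).eventually hP
  rw [eventually_iff, mem_nhdsGE_iff_exists_Ico_subset] at h2
  obtain ⟨u, hu, hsub⟩ := h2
  obtain ⟨T', hT1, hT2, hc⟩ := hB.cont g T hT (u - T) (sub_pos.2 hu)
  exact ⟨T', hT1, hc, hsub ⟨hT1, by linarith⟩⟩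

theorem isClosed_Osc {B : ℝ → M → ℝ} (hB : Nice B) (ε : ℝ) {T0 : ℝ} (hT0 : 0 < T0) :
    IsClosed (Osc B ε T0) := by
  rw [← isOpen_compl_iff, isOpen_iff_mem_nhds]
  intro g hg
  have hg' : ∃ T, T0 ≤ T ∧ ∃ T', T0 ≤ T' ∧ ε < |B T g - B T' g| := by
    by_contra h
    push Not at h
    exact hg h
  obtain ⟨T, hT, T', hT', hdev⟩ := hg'
  have h1 : ∀ᶠ y in 𝓝 (B T g), ε < |y - B T' g| := by
    have : ContinuousAt (fun y : ℝ => |y - B T' g|) (B T g) := by fun_prop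
    exact this.eventually (lt_mem_nhds hdev)
  obtain ⟨T1, hT1, hc1, hd1⟩ := exists_cont hB g (lt_of_lt_of_le hT0 hT) h1
  have h2 : ∀ᶠ y in 𝓝 (B T' g), ε < |B T1 g - y| := by
    have : ContinuousAt (fun y : ℝ => |B T1 g - y|) (B T' g) := by fun_prop
    exact this.eventually (lt_mem_nhds hd1)
  obtain ⟨T2, hT2, hc2, hd2⟩ := exists_cont hB g (lt_of_lt_of_le hT0 hT') h2
  have h4 : ContinuousAt (fun g => |B T1 g - B T2 g|) g := (hc1.sub hc2).abs
  filter_upwards [h4.eventually (lt_mem_nhds hd2)] with g' hg'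
  intro hF
  exact absurd (hF T1 (hT.trans hT1) T2 (hT'.trans hT2)) (not_le.2 hg')

theorem Osc_mono (B : ℝ → M → ℝ) (ε : ℝ) {T0 T1 : ℝ} (h : T0 ≤ T1) : Osc B ε T0 ⊆ Osc B ε T1 :=
  fun _ hg T hT T' hT' => hg T (h.trans hT) T' (h.trans hT')

/-- up to `ε` the values are one number, locally uniformly near a dense set -/
def LocConst (B : ℝ → M → ℝ) : Prop :=
  ∀ ε : ℝ, 0 < ε → ∀ U : Set M, IsOpen U → U.Nonempty →
    ∃ V : Set M, IsOpen V ∧ V.Nonempty ∧ V ⊆ U ∧ ∃ c T0 : ℝ, ∀ g ∈ V, ∀ T, T0 ≤ T → |B T g - c| ≤ ε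

/-- convergence from the Cauchy property -/
theorem tendsto_of_cauchy {b : ℝ → ℝ} (h : ∀ ε : ℝ, 0 < ε → ∃ T0 : ℝ, ∀ T, T0 ≤ T → ∀ T', T0 ≤ T' →
    |b T - b T'| ≤ ε) : ∃ c, Tendsto b atTop (𝓝 c) := by
  apply cauchy_map_iff_exists_tendsto.1
  rw [Metric.cauchy_iff]
  refine ⟨inferInstance, fun ε hε => ?_⟩
  obtain ⟨T0, hT0⟩ := h (ε / 2) (by positivity)
  refine ⟨b '' Ici T0, image_mem_map (Ici_mem_atTop T0), ?_⟩
  rintro _ ⟨T, hT, rfl⟩ _ ⟨T', hT', rfl⟩
  rw [Real.dist_eq]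
  have := hT0 T hT T' hT'
  linarith

theorem cauchy_of_tendsto {b : ℝ → ℝ} {c : ℝ} (h : Tendsto b atTop (𝓝 c)) {ε : ℝ} (hε : 0 < ε) :
    ∃ T0 : ℝ, ∀ T, T0 ≤ T → ∀ T', T0 ≤ T' → |b T - b T'| ≤ ε := by
  obtain ⟨T0, hT0⟩ := eventually_atTop.1 ((Metric.tendsto_nhds.1 h) (ε / 2) (by positivity))
  refine ⟨T0, fun T hT T' hT' => ?_⟩
  have h1 := hT0 T hT
  have h2 := hT0 T' hT'
  rw [Real.dist_eq] at h1 h2
  rw [abs_lt] at h1 h2
  rw [abs_le]
  constructor <;> linarith [h1.1, h1.2, h2.1, h2.2]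

theorem residual_of_locConst {B : ℝ → M → ℝ} (h : LocConst B) :
    ∀ᶠ g in residual M, ∃ c, Tendsto (fun T => B T g) atTop (𝓝 c) := by
  have key : ∀ n : ℕ, ∀ᶠ g in residual M, ∃ T0 : ℝ, ∀ T, T0 ≤ T → ∀ T', T0 ≤ T' →
      |B T g - B T' g| ≤ 2 * (1 / ((n : ℝ) + 1)) := by
    intro n
    have hpos : (0 : ℝ) < 1 / ((n : ℝ) + 1) := by positivity
    set W : Set M := ⋃₀ {V | IsOpen V ∧ ∃ c T0 : ℝ, ∀ g ∈ V, ∀ T, T0 ≤ T →
      |B T g - c| ≤ 1 / ((n : ℝ) + 1)} with hW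
    have ho : IsOpen W := isOpen_sUnion fun V hV => hV.1
    have hd : Dense W := by
      rw [dense_iff_inter_open]
      intro U hU hne
      obtain ⟨V, hV, ⟨g, hg⟩, hVU, hc⟩ := h _ hpos U hU hne
      exact ⟨g, hVU hg, V, ⟨hV, hc⟩, hg⟩
    filter_upwards [residual_of_dense_open ho hd] with g hg
    obtain ⟨V, ⟨-, c, T0, hV⟩, hgV⟩ := hg
    refine ⟨T0, fun T hT T' hT' => ?_⟩
    have h1 := abs_le.1 (hV g hgV T hT)
    have h2 := abs_le.1 (hV g hgV T' hT')
    rw [abs_le]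
    constructor <;> linarith [h1.1, h1.2, h2.1, h2.2]
  filter_upwards [eventually_countable_forall.2 key] with g hg
  apply tendsto_of_cauchy
  intro ε hε
  obtain ⟨n, hn⟩ := exists_nat_one_div_lt (show (0 : ℝ) < ε / 2 by positivity)
  obtain ⟨T0, hT0⟩ := hg n
  exact ⟨T0, fun T hT T' hT' => (hT0 T hT T' hT').trans (by linarith)⟩

/-- either up to `ε` constant near a dense set, or generic oscillation on an open set -/
theorem exists_osc_of_not_locConst {B : ℝ → M → ℝ} (hB : Nice B) (h : ¬ LocConst B) :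
    ∃ ε : ℝ, 0 < ε ∧ ∃ U : Set M, IsOpen U ∧ U.Nonempty ∧
      ∀ᶠ g in residual M, g ∈ U → ∀ T0 : ℝ, ∃ T, T0 ≤ T ∧ ∃ T', T0 ≤ T' ∧ ε < |B T g - B T' g| := by
  unfold LocConst at h
  push Not at h
  obtain ⟨ε, hε, U, hU, hne, hV⟩ := h
  refine ⟨ε / 2, by positivity, U, hU, hne, ?_⟩
  have key : ∀ n : ℕ, ∀ᶠ g in residual M, g ∈ U → g ∉ Osc B (ε / 2) ((n : ℝ) + 1) := by
    intro n
    set Fn := Osc B (ε / 2) ((n : ℝ) + 1) with hFn
    have hn1 : (0 : ℝ) < (n : ℝ) + 1 := by positivity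
    have hcl : IsClosed Fn := isClosed_Osc hB (ε / 2) hn1
    have ho : IsOpen (Fnᶜ ∪ (closure U)ᶜ) :=
      hcl.isOpen_compl.union isClosed_closure.isOpen_compl
    have hd : Dense (Fnᶜ ∪ (closure U)ᶜ) := by
      rw [dense_iff_inter_open]
      intro W hW hWne
      by_cases hWU : (W ∩ U).Nonempty
      · by_contra hemp
        rw [not_nonempty_iff_eq_empty] at hemp
        have hsub : ∀ g ∈ W ∩ U, g ∈ Fn := by
          intro g hg
          by_contra hgF
          have : g ∈ W ∩ (Fnᶜ ∪ (closure U)ᶜ) := ⟨hg.1, Or.inl hgF⟩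
          rw [hemp] at this
          exact this
        obtain ⟨g0, hg0⟩ := hWU
        obtain ⟨T1, hT1, hc1, -⟩ := exists_cont hB g0 hn1 (P := fun _ => True)
          (Eventually.of_forall fun _ => trivial)
        have hnb : {g | |B T1 g - B T1 g0| < ε / 2} ∈ 𝓝 g0 := by
          have h3 : ContinuousAt (fun g => |B T1 g - B T1 g0|) g0 := by
            exact (hc1.sub continuousAt_const).abs
          have h4 : (fun g => |B T1 g - B T1 g0|) g0 < ε / 2 := by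
            simp only [sub_self, abs_zero]
            positivity
          exact h3.eventually (gt_mem_nhds h4)
        obtain ⟨V, hVsub, hVo, hgV⟩ := mem_nhds_iff.1 hnb
        obtain ⟨g, hg, T, hT, hdev⟩ := hV (V ∩ (W ∩ U)) (hVo.inter (hW.inter hU)) ⟨g0, hgV, hg0⟩
          (fun g hg => hg.2.2) (B T1 g0) ((n : ℝ) + 1)
        have h5 := hsub g hg.2 T hT T1 hT1
        have h6 : |B T1 g - B T1 g0| < ε / 2 := hVsub hg.1
        have h7 : |B T g - B T1 g0| ≤ |B T g - B T1 g| + |B T1 g - B T1 g0| := abs_sub_le _ _ _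
        linarith
      · obtain ⟨g, hg⟩ := hWne
        refine ⟨g, hg, Or.inr ?_⟩
        intro hcl'
        rw [mem_closure_iff] at hcl'
        exact hWU (hcl' W hW hg)
    filter_upwards [residual_of_dense_open ho hd] with g hg hgU hgF
    rcases hg with h | h
    · exact h hgF
    · exact h (subset_closure hgU)
  filter_upwards [eventually_countable_forall.2 key] with g hg hgU T0
  obtain ⟨n, hn⟩ := exists_nat_ge T0
  by_contra hcon
  push Not at hcon
  exact hg n hgU fun T hT T' hT' => hcon T (by linarith) T' (by linarith)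

theorem locConst_of_residual [BaireSpace M] {B : ℝ → M → ℝ} (hB : Nice B)
    (h : ∀ᶠ g in residual M, ∃ c, Tendsto (fun T => B T g) atTop (𝓝 c)) : LocConst B := by
  by_contra hn
  obtain ⟨ε, hε, U, hU, hne, hr⟩ := exists_osc_of_not_locConst hB hn
  obtain ⟨g, hgU, ⟨c, hg1⟩, hg2⟩ :=
    (dense_of_mem_residual (h.and hr)).inter_open_nonempty U hU hne
  obtain ⟨T0, hT0⟩ := cauchy_of_tendsto hg1 hε
  obtain ⟨T, hT, T', hT', hlt⟩ := hg2 hgU T0
  exact absurd (hT0 T hT T' hT') (not_le.2 hlt)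

/-- the law `c` from the local constancy and from single values near `c` -/
theorem locUnif_of_locConst {B : ℝ → M → ℝ} {c : ℝ} (h : LocConst B)
    (hc : ∀ ε : ℝ, 0 < ε → ∀ U : Set M, IsOpen U → U.Nonempty → ∀ T0 : ℝ,
      ∃ g ∈ U, ∃ T, T0 ≤ T ∧ |B T g - c| < ε) : LocUnif B c := by
  intro ε hε U hU hne
  obtain ⟨V, hV, hVne, hVU, c', T0, hc'⟩ := h (ε / 3) (by positivity) U hU hne
  refine ⟨V, hV, hVne, hVU, T0, fun g hg T hT => ?_⟩
  obtain ⟨g1, hg1, T1, hT1, h1⟩ := hc (ε / 3) (by positivity) V hV hVne T0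
  have h2 := abs_le.1 (hc' g hg T hT)
  have h3 := abs_le.1 (hc' g1 hg1 T1 hT1)
  have h4 := abs_lt.1 h1
  rw [abs_le]
  constructor <;> linarith [h2.1, h2.2, h3.1, h3.2, h4.1, h4.2]

theorem locConst_of_locUnif {B : ℝ → M → ℝ} {c : ℝ} (h : LocUnif B c) : LocConst B := by
  intro ε hε U hU hne
  obtain ⟨V, h1, h2, h3, T0, h4⟩ := h ε hε U hU hne
  exact ⟨V, h1, h2, h3, c, T0, h4⟩

theorem near_of_locUnif {B : ℝ → M → ℝ} {c : ℝ} (h : LocUnif B c) :
    ∀ ε : ℝ, 0 < ε → ∀ U : Set M, IsOpen U → U.Nonempty → ∀ T0 : ℝ,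
      ∃ g ∈ U, ∃ T, T0 ≤ T ∧ |B T g - c| < ε := by
  intro ε hε U hU hne T0
  obtain ⟨V, -, ⟨g, hg⟩, hVU, T1, h1⟩ := h (ε / 2) (by positivity) U hU hne
  refine ⟨g, hVU hg, max T0 T1, le_max_left _ _, ?_⟩
  have := h1 g hg (max T0 T1) (le_max_right _ _)
  linarith

/-- nowhere dense exceptional sets -/
theorem locUnif_of_nowhere {B : ℝ → M → ℝ} (hB : Nice B) [BaireSpace M] {c : ℝ}
    (h : ∀ ε : ℝ, 0 < ε → IsNowhereDense {g | ∃ᶠ T in atTop, ε < |B T g - c|}) : LocUnif B c := by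
  by_contra hn
  obtain ⟨ε, hε, U, hU, hne, hr⟩ := exists_open_of_not_locUnif hB hn
  have h1 : U ⊆ closure {g | ∃ᶠ T in atTop, ε < |B T g - c|} := by
    intro g hg
    rw [mem_closure_iff]
    intro W hW hgW
    obtain ⟨g', hg', hg''⟩ := (dense_of_mem_residual hr).inter_open_nonempty (W ∩ U) (hW.inter hU)
      ⟨g, hgW, hg⟩
    exact ⟨g', hg'.1, hg'' hg'.2⟩
  have h2 : U ⊆ interior (closure {g | ∃ᶠ T in atTop, ε < |B T g - c|}) := interior_maximal h1 hU
  have h3 := h ε hε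
  rw [IsNowhereDense] at h3
  rw [h3] at h2
  obtain ⟨g, hg⟩ := hne
  exact h2 hg

/-- a rate holds uniformly on an open set or fails for generic parameters -/
theorem rate {B : ℝ → M → ℝ} (hB : Nice B) (c : ℝ) {ρ : ℝ → ℝ} (hρ : Continuous ρ) :
    (∃ U : Set M, IsOpen U ∧ U.Nonempty ∧ ∃ T0 : ℝ, ∀ g ∈ U, ∀ T, T0 ≤ T → |B T g - c| ≤ ρ T) ∨
      ∀ᶠ g in residual M, ∀ T0 : ℝ, ∃ T, T0 ≤ T ∧ ρ T < |B T g - c| := by
  have hcl : ∀ n : ℕ, IsClosed {g | ∀ T, (n : ℝ) + 1 ≤ T → |B T g - c| ≤ ρ T} := by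
    intro n
    rw [← isOpen_compl_iff, isOpen_iff_mem_nhds]
    intro g hg
    have hg' : ∃ T, (n : ℝ) + 1 ≤ T ∧ ρ T < |B T g - c| := by
      by_contra h
      push Not at h
      exact hg h
    obtain ⟨T, hT, hdev⟩ := hg'
    have hTpos : 0 < T := lt_of_lt_of_le (by positivity) hT
    have h1 : ContinuousWithinAt (fun T => |B T g - c| - ρ T) (Ici T) T :=
      (((hB.right g T hTpos).sub continuousWithinAt_const).abs).sub hρ.continuousWithinAt
    have h2 : ∀ᶠ S in 𝓝[≥] T, 0 < |B S g - c| - ρ S := h1.eventually (lt_mem_nhds (by linarith))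
    rw [eventually_iff, mem_nhdsGE_iff_exists_Ico_subset] at h2
    obtain ⟨u, hu, hsub⟩ := h2
    obtain ⟨T', hT1, hT2, hc⟩ := hB.cont g T hTpos (u - T) (sub_pos.2 hu)
    have h3 : 0 < |B T' g - c| - ρ T' := hsub ⟨hT1, by linarith⟩
    have h4 : ContinuousAt (fun g => |B T' g - c|) g := (hc.sub continuousAt_const).abs
    filter_upwards [h4.eventually (lt_mem_nhds (show ρ T' < |B T' g - c| by linarith))] with g' hg'
    intro hF
    exact absurd (hF T' (hT.trans hT1)) (not_le.2 hg')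
  by_cases hint : ∃ n : ℕ, (interior {g | ∀ T, (n : ℝ) + 1 ≤ T → |B T g - c| ≤ ρ T}).Nonempty
  · obtain ⟨n, hn⟩ := hint
    exact Or.inl ⟨_, isOpen_interior, hn, (n : ℝ) + 1, fun g hg => interior_subset hg⟩
  · right
    push Not at hint
    have key : ∀ n : ℕ, ∀ᶠ g in residual M, g ∉ {g | ∀ T, (n : ℝ) + 1 ≤ T → |B T g - c| ≤ ρ T} := by
      intro n
      apply residual_of_dense_open (hcl n).isOpen_compl
      rw [← interior_eq_empty_iff_dense_compl]
      exact hint n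
    filter_upwards [eventually_countable_forall.2 key] with g hg T0
    obtain ⟨n, hn⟩ := exists_nat_ge T0
    by_contra hcon
    push Not at hcon
    exact hg n fun T hT => hcon T (by linarith)

end gen

section spec

variable {M : Type*} [TopologicalSpace M] {n : ℕ}

theorem conv_of_tf (X : Spectra M) (L : LocalStat (Fin n → ℝ)) (g : M)
    (h1 : ∀ a : ℕ × ℕ, ∃ c, Tendsto (fun T => S X L (tf a) T g) atTop (𝓝 c))
    (h2 : ∀ m : ℕ, ∃ c, Tendsto (fun T => S X L (cut m) T g) atTop (𝓝 c))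
    {f : (Fin n → ℝ) → ℝ} (hf : Continuous f) (hs : HasCompactSupport f) :
    ∃ c, Tendsto (fun T => S X L f T g) atTop (𝓝 c) := by
  obtain ⟨m, hm⟩ := exists_radius hf hs
  obtain ⟨C, hC⟩ := h2 m
  apply tendsto_of_cauchy
  intro ε hε
  set η : ℝ := ε / (4 * (|C| + 1)) with hη
  have hηpos : 0 < η := by positivity
  obtain ⟨k, hk⟩ := hm η hηpos
  obtain ⟨c, hc⟩ := h1 (k, m)
  obtain ⟨T1, hT1⟩ := cauchy_of_tendsto hc (show 0 < ε / 2 by positivity)
  obtain ⟨T2, hT2⟩ := eventually_atTop.1 ((Metric.tendsto_nhds.1 hC) 1 one_pos)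
  have hsum : ∀ T : ℝ, 0 < T → |S X L f T g - S X L (tf (k, m)) T g| ≤ η * S X L (cut m) T g := by
    intro T hT
    unfold S
    rw [← sub_div, ← Finset.sum_sub_distrib, abs_div, abs_of_pos hT, ← mul_div_assoc]
    apply div_le_div_of_nonneg_right _ hT.le
    rw [Finset.mul_sum]
    exact (Finset.abs_sum_le_sum_abs _ _).trans (Finset.sum_le_sum fun i _ => hk _)
  have h7 : η * (|C| + 1) = ε / 4 := by
    rw [hη]; field_simp
  have hb : ∀ T, max 1 (max T1 T2) ≤ T → |S X L f T g - S X L (tf (k, m)) T g| ≤ ε / 4 := by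
    intro T hT
    have hT0 : 0 < T := lt_of_lt_of_le one_pos ((le_max_left _ _).trans hT)
    have h3 := hT2 T ((le_max_right _ _).trans ((le_max_right _ _).trans hT))
    rw [Real.dist_eq] at h3
    have h4 : S X L (cut m) T g ≤ |C| + 1 := by
      have := (abs_lt.1 h3).2
      have := le_abs_self C
      linarith
    calc _ ≤ η * S X L (cut m) T g := hsum T hT0
      _ ≤ η * (|C| + 1) := mul_le_mul_of_nonneg_left h4 hηpos.le
      _ = ε / 4 := h7
  refine ⟨max 1 (max T1 T2), fun T hT T' hT' => ?_⟩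
  have e1 := abs_le.1 (hb T hT)
  have e2 := abs_le.1 (hb T' hT')
  have e3 := abs_le.1 (hT1 T ((le_max_left _ _).trans ((le_max_right _ _).trans hT)) T'
    ((le_max_left _ _).trans ((le_max_right _ _).trans hT')))
  rw [abs_le]
  constructor <;> linarith [e1.1, e1.2, e2.1, e2.2, e3.1, e3.2]

/-- all the statistics converge -/
def Conv (X : Spectra M) {𝒜 : Type} (d : 𝒜 → ℕ) (L : ∀ a, LocalStat (Fin (d a) → ℝ)) (g : M) : Prop :=
  ∀ a, ∀ f : (Fin (d a) → ℝ) → ℝ, Continuous f → HasCompactSupport f →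
    ∃ c, Tendsto (fun T => S X (L a) f T g) atTop (𝓝 c)

theorem conv_iff [BaireSpace M] (X : Spectra M) {𝒜 : Type} [Countable 𝒜] (d : 𝒜 → ℕ)
    (L : ∀ a, LocalStat (Fin (d a) → ℝ)) :
    (∀ᶠ g in residual M, Conv X d L g) ↔
      ∀ a, ∀ f : (Fin (d a) → ℝ) → ℝ, Continuous f → HasCompactSupport f →
        LocConst (S X (L a) f) := by
  constructor
  · intro h a f hf hs
    apply locConst_of_residual (nice_S X (L a) hf)
    filter_upwards [h] with g hg
    exact hg a f hf hs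
  · intro h
    have h1 : ∀ᶠ g in residual M, ∀ a : 𝒜, ∀ b : ℕ × ℕ,
        ∃ c, Tendsto (fun T => S X (L a) (tf b) T g) atTop (𝓝 c) := by
      rw [eventually_countable_forall]
      intro a
      rw [eventually_countable_forall]
      intro b
      exact residual_of_locConst (h a _ (tf_cont b) (tf_supp b))
    have h2 : ∀ᶠ g in residual M, ∀ a : 𝒜, ∀ m : ℕ,
        ∃ c, Tendsto (fun T => S X (L a) (cut m) T g) atTop (𝓝 c) := by
      rw [eventually_countable_forall]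
      intro a
      rw [eventually_countable_forall]
      intro b
      exact residual_of_locConst (h a _ (cut_cont b) (cut_supp b))
    filter_upwards [h1, h2] with g hg1 hg2
    intro a f hf hs
    exact conv_of_tf X (L a) g (hg1 a) (hg2 a) hf hs

end spec

end Pool.Agent.U758.BGS
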