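import Pool.Agent.U758.BGS.Gen

/-! Joint convergence, for `T → ∞` and parameters tending to a generic parameter. -/

set_option autoImplicit false

namespace Pool.Agent.U758.BGS

open Filter Topology Set MeasureTheory
open Pool.Agent.Q205.Baire

theorem tendsto_of_cauchy' {α : Type*} {l : Filter α} [l.NeBot] {b : α → ℝ}
    (h : ∀ ε : ℝ, 0 < ε → ∃ s ∈ l, ∀ x ∈ s, ∀ y ∈ s, |b x - b y| ≤ ε) : ∃ c, Tendsto b l (𝓝 c) := by
  apply cauchy_map_iff_exists_tendsto.1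
  rw [Metric.cauchy_iff]
  refine ⟨inferInstance, fun ε hε => ?_⟩
  obtain ⟨s, hs, hb⟩ := h (ε / 2) (by positivity)
  refine ⟨b '' s, image_mem_map hs, ?_⟩
  rintro _ ⟨T, hT, rfl⟩ _ ⟨T', hT', rfl⟩
  rw [Real.dist_eq]
  have := hb T hT T' hT'
  linarith

theorem cauchy_of_tendsto' {α : Type*} {l : Filter α} {b : α → ℝ} {c : ℝ} (h : Tendsto b l (𝓝 c))
    {ε : ℝ} (hε : 0 < ε) : ∃ s ∈ l, ∀ x ∈ s, ∀ y ∈ s, |b x - b y| ≤ ε := by
  refine ⟨_, (Metric.tendsto_nhds.1 h) (ε / 2) (by positivity), fun x hx y hy => ?_⟩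
  have h1 : dist (b x) c < ε / 2 := hx
  have h2 : dist (b y) c < ε / 2 := hy
  rw [Real.dist_eq, abs_lt] at h1 h2
  rw [abs_le]
  constructor <;> linarith [h1.1, h1.2, h2.1, h2.2]

section gen

variable {M : Type*} [TopologicalSpace M]

theorem joint_of_locUnif {B : ℝ → M → ℝ} {c : ℝ} (h : LocUnif B c) :
    ∀ᶠ g in residual M, Tendsto (fun p : ℝ × M => B p.1 p.2) (atTop ×ˢ 𝓝 g) (𝓝 c) := by
  have key : ∀ n : ℕ, ∀ᶠ g in residual M, ∀ᶠ p : ℝ × M in atTop ×ˢ 𝓝 g,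
      |B p.1 p.2 - c| ≤ 1 / ((n : ℝ) + 1) := by
    intro n
    have hpos : (0 : ℝ) < 1 / ((n : ℝ) + 1) := by positivity
    set W : Set M := ⋃₀ {V | IsOpen V ∧ ∃ T0 : ℝ, ∀ g ∈ V, ∀ T, T0 ≤ T →
      |B T g - c| ≤ 1 / ((n : ℝ) + 1)} with hW
    have ho : IsOpen W := isOpen_sUnion fun V hV => hV.1
    have hd : Dense W := by
      rw [dense_iff_inter_open]
      intro U hU hne
      obtain ⟨V, hV, ⟨g, hg⟩, hVU, hc⟩ := h _ hpos U hU hne
      exact ⟨g, hVU hg, V, ⟨hV, hc⟩, hg⟩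
    filter_upwards [residual_of_dense_open ho hd] with g hg
    obtain ⟨V, ⟨hVo, T0, hV⟩, hgV⟩ := hg
    filter_upwards [(eventually_ge_atTop T0).prod_mk (hVo.eventually_mem hgV)] with p hp
    exact hV p.2 hp.2 p.1 hp.1
  filter_upwards [eventually_countable_forall.2 key] with g hg
  rw [Metric.tendsto_nhds]
  intro ε hε
  obtain ⟨n, hn⟩ := exists_nat_one_div_lt hε
  filter_upwards [hg n] with p hp
  rw [Real.dist_eq]
  linarith

theorem joint_of_locConst {B : ℝ → M → ℝ} (h : LocConst B) :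
    ∀ᶠ g in residual M, ∃ c, Tendsto (fun p : ℝ × M => B p.1 p.2) (atTop ×ˢ 𝓝 g) (𝓝 c) := by
  have key : ∀ n : ℕ, ∀ᶠ g in residual M, ∃ c, ∀ᶠ p : ℝ × M in atTop ×ˢ 𝓝 g,
      |B p.1 p.2 - c| ≤ 1 / ((n : ℝ) + 1) := by
    intro n
    have hpos : (0 : ℝ) < 1 / ((n : ℝ) + 1) := by positivity
    set W : Set M := ⋃₀ {V | IsOpen V ∧ ∃ c T0 : ℝ, ∀ g ∈ V, ∀ T, T0 ≤ T →
      |B T g - c| ≤ 1 / ((n : ℝ) + 1)} with hW
    have ho : IsOpen W := isOpen_sUnion fun V hV => hV.1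
    have hd : Dense W := by
      rw [dense_iff_inter_open]
      intro U hU hne
      obtain ⟨V, hV, ⟨g, hg⟩, hVU, hc⟩ := h _ hpos U hU hne
      exact ⟨g, hVU hg, V, ⟨hV, hc⟩, hg⟩
    filter_upwards [residual_of_dense_open ho hd] with g hg
    obtain ⟨V, ⟨hVo, c, T0, hV⟩, hgV⟩ := hg
    refine ⟨c, ?_⟩
    filter_upwards [(eventually_ge_atTop T0).prod_mk (hVo.eventually_mem hgV)] with p hp
    exact hV p.2 hp.2 p.1 hp.1
  filter_upwards [eventually_countable_forall.2 key] with g hg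
  apply tendsto_of_cauchy'
  intro ε hε
  obtain ⟨n, hn⟩ := exists_nat_one_div_lt (show (0 : ℝ) < ε / 2 by positivity)
  obtain ⟨c, hc⟩ := hg n
  refine ⟨_, hc, fun p hp q hq => ?_⟩
  have h1 : |B p.1 p.2 - c| ≤ 1 / ((n : ℝ) + 1) := hp
  have h2 : |B q.1 q.2 - c| ≤ 1 / ((n : ℝ) + 1) := hq
  rw [abs_le] at h1 h2
  rw [abs_le]
  constructor <;> linarith [h1.1, h1.2, h2.1, h2.2]

theorem tendsto_of_joint {B : ℝ → M → ℝ} {c : ℝ} {g : M}
    (h : Tendsto (fun p : ℝ × M => B p.1 p.2) (atTop ×ˢ 𝓝 g) (𝓝 c)) :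
    Tendsto (fun T => B T g) atTop (𝓝 c) :=
  h.comp (tendsto_id.prodMk (tendsto_const_nhds (x := g)))

end gen

section spec

variable {M : Type*} [TopologicalSpace M] {n : ℕ}

theorem joint_of_bas (X : Spectra M) (L : LocalStat (Fin n → ℝ)) (ν : Measure (Fin n → ℝ))
    [IsFiniteMeasureOnCompacts ν] (g : M)
    (h : ∀ b : (ℕ × ℕ) ⊕ ℕ, Tendsto (fun p : ℝ × M => S X L (bas b) p.1 p.2) (atTop ×ˢ 𝓝 g)
      (𝓝 (∫ z, bas b z ∂ν)))
    {f : (Fin n → ℝ) → ℝ} (hf : Continuous f) (hs : HasCompactSupport f) :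
    Tendsto (fun p : ℝ × M => S X L f p.1 p.2) (atTop ×ˢ 𝓝 g) (𝓝 (∫ z, f z ∂ν)) := by
  rw [Metric.tendsto_nhds]
  intro ε hε
  obtain ⟨k, m, δ, hδ, hap⟩ := approx X L ν hf hs hε
  have e0 : ∀ᶠ p : ℝ × M in atTop ×ˢ 𝓝 g, 0 < p.1 ∧ True :=
    (eventually_gt_atTop (0 : ℝ)).prod_mk (Eventually.of_forall fun _ => trivial)
  filter_upwards [e0, (Metric.tendsto_nhds.1 (h (Sum.inl (k, m)))) δ hδ,
    (Metric.tendsto_nhds.1 (h (Sum.inr m))) δ hδ] with p h0 h1 h2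
  rw [Real.dist_eq] at h1 h2 ⊢
  exact hap p.2 p.1 h0.1 h1 h2

theorem jointConv_of_bas (X : Spectra M) (L : LocalStat (Fin n → ℝ)) (g : M)
    (h : ∀ b : (ℕ × ℕ) ⊕ ℕ, ∃ c, Tendsto (fun p : ℝ × M => S X L (bas b) p.1 p.2) (atTop ×ˢ 𝓝 g)
      (𝓝 c))
    {f : (Fin n → ℝ) → ℝ} (hf : Continuous f) (hs : HasCompactSupport f) :
    ∃ c, Tendsto (fun p : ℝ × M => S X L f p.1 p.2) (atTop ×ˢ 𝓝 g) (𝓝 c) := by
  obtain ⟨m, hm⟩ := exists_radius hf hs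
  obtain ⟨C, hC⟩ := h (Sum.inr m)
  apply tendsto_of_cauchy'
  intro ε hε
  set η : ℝ := ε / (4 * (|C| + 1)) with hη
  have hηpos : 0 < η := by positivity
  obtain ⟨k, hk⟩ := hm η hηpos
  obtain ⟨c, hc⟩ := h (Sum.inl (k, m))
  obtain ⟨s1, hs1, hc1⟩ := cauchy_of_tendsto' hc (show 0 < ε / 2 by positivity)
  have h2 := (Metric.tendsto_nhds.1 hC) 1 one_pos
  have e0 : ∀ᶠ p : ℝ × M in atTop ×ˢ 𝓝 g, 0 < p.1 ∧ True :=
    (eventually_gt_atTop (0 : ℝ)).prod_mk (Eventually.of_forall fun _ => trivial)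
  have hsum : ∀ (T : ℝ) (g : M), 0 < T →
      |S X L f T g - S X L (tf (k, m)) T g| ≤ η * S X L (cut m) T g := by
    intro T g hT
    unfold S
    rw [← sub_div, ← Finset.sum_sub_distrib, abs_div, abs_of_pos hT, ← mul_div_assoc]
    apply div_le_div_of_nonneg_right _ hT.le
    rw [Finset.mul_sum]
    exact (Finset.abs_sum_le_sum_abs _ _).trans (Finset.sum_le_sum fun i _ => hk _)
  have h7 : η * (|C| + 1) = ε / 4 := by
    rw [hη]; field_simp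
  have hb : ∀ᶠ p : ℝ × M in atTop ×ˢ 𝓝 g,
      |S X L f p.1 p.2 - S X L (tf (k, m)) p.1 p.2| ≤ ε / 4 ∧ p ∈ s1 := by
    filter_upwards [e0, h2, hs1] with p hp0 hp2 hp1
    refine ⟨?_, hp1⟩
    rw [Real.dist_eq] at hp2
    have h4 : S X L (cut m) p.1 p.2 ≤ |C| + 1 := by
      have h5 : |S X L (cut m) p.1 p.2 - C| < 1 := hp2
      have := (abs_lt.1 h5).2
      have := le_abs_self C
      linarith
    calc _ ≤ η * S X L (cut m) p.1 p.2 := hsum _ _ hp0.1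
      _ ≤ η * (|C| + 1) := mul_le_mul_of_nonneg_left h4 hηpos.le
      _ = ε / 4 := h7
  refine ⟨_, hb, fun p hp q hq => ?_⟩
  have e1 := abs_le.1 hp.1
  have e2 := abs_le.1 hq.1
  have e3 : |S X L (tf (k, m)) p.1 p.2 - S X L (tf (k, m)) q.1 q.2| ≤ ε / 2 :=
    hc1 p hp.2 q hq.2
  have e3 := abs_le.1 e3
  rw [abs_le]
  constructor <;> linarith [e1.1, e1.2, e2.1, e2.2, e3.1, e3.2]

variable {𝒜 : Type} [Countable 𝒜]

/-- the generic law is a joint law -/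
theorem joint_law (X : Spectra M) (d : 𝒜 → ℕ) (L : ∀ a, LocalStat (Fin (d a) → ℝ))
    (ν : ∀ a, Measure (Fin (d a) → ℝ)) [∀ a, IsFiniteMeasureOnCompacts (ν a)]
    (h : ∀ a, ∀ f : (Fin (d a) → ℝ) → ℝ, Continuous f → HasCompactSupport f →
        LocUnif (S X (L a) f) (∫ z, f z ∂(ν a))) :
    ∀ᶠ g in residual M, ∀ a, ∀ f : (Fin (d a) → ℝ) → ℝ, Continuous f → HasCompactSupport f →
      Tendsto (fun p : ℝ × M => S X (L a) f p.1 p.2) (atTop ×ˢ 𝓝 g) (𝓝 (∫ z, f z ∂(ν a))) := by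
  have h1 : ∀ᶠ g in residual M, ∀ a : 𝒜, ∀ b : (ℕ × ℕ) ⊕ ℕ,
      Tendsto (fun p : ℝ × M => S X (L a) (bas b) p.1 p.2) (atTop ×ˢ 𝓝 g)
        (𝓝 (∫ z, bas b z ∂(ν a))) := by
    rw [eventually_countable_forall]
    intro a
    rw [eventually_countable_forall]
    intro b
    exact joint_of_locUnif (h a _ (bas_cont b) (bas_supp b))
  filter_upwards [h1] with g hg a f hf hs
  exact joint_of_bas X (L a) (ν a) g (hg a) hf hs

theorem joint_conv (X : Spectra M) (d : 𝒜 → ℕ) (L : ∀ a, LocalStat (Fin (d a) → ℝ))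
    (h : ∀ a, ∀ f : (Fin (d a) → ℝ) → ℝ, Continuous f → HasCompactSupport f →
        LocConst (S X (L a) f)) :
    ∀ᶠ g in residual M, ∀ a, ∀ f : (Fin (d a) → ℝ) → ℝ, Continuous f → HasCompactSupport f →
      ∃ c, Tendsto (fun p : ℝ × M => S X (L a) f p.1 p.2) (atTop ×ˢ 𝓝 g) (𝓝 c) := by
  have h1 : ∀ᶠ g in residual M, ∀ a : 𝒜, ∀ b : (ℕ × ℕ) ⊕ ℕ,
      ∃ c, Tendsto (fun p : ℝ × M => S X (L a) (bas b) p.1 p.2) (atTop ×ˢ 𝓝 g) (𝓝 c) := by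
    rw [eventually_countable_forall]
    intro a
    rw [eventually_countable_forall]
    intro b
    exact joint_of_locConst (h a _ (bas_cont b) (bas_supp b))
  filter_upwards [h1] with g hg a f hf hs
  exact jointConv_of_bas X (L a) g (hg a) hf hs

end spec

end Pool.Agent.U758.BGS
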